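import Mathlib
import Pool.Agent.H964.QC.Stm

set_option autoImplicit false

open MeasureTheory ProbabilityTheory Filter Finset
open Pool.Agent.H964.QC

namespace Pool.Agent.H686.QC

theorem t_FRZ : S_FRZ := by
  intro Ω E1 E2 F _ _ _ _ _ _ _ _ _ P _ X Y f hX hY hf hI hint
  have hmap : P.map (fun ω => (X ω, Y ω)) = (P.map X).prod (P.map Y) :=
    (indepFun_iff_map_prod_eq_prod_map_map hX.aemeasurable hY.aemeasurable).mp hI
  have hXY : Measurable fun ω => (X ω, Y ω) := hX.prodMk hY
  have hPX : IsProbabilityMeasure (P.map X) := Measure.isProbabilityMeasure_map hX.aemeasurable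
  have hPY : IsProbabilityMeasure (P.map Y) := Measure.isProbabilityMeasure_map hY.aemeasurable
  have hfs : StronglyMeasurable f := hf.stronglyMeasurable
  have hint2 : Integrable f ((P.map X).prod (P.map Y)) := by
    rw [← hmap]
    exact (integrable_map_measure hfs.aestronglyMeasurable hXY.aemeasurable).mpr hint
  have hin : ∀ x : E1, ∫ y, f (x, y) ∂(P.map Y) = ∫ ω', f (x, Y ω') ∂P := by
    intro x
    have hm : StronglyMeasurable fun y => f (x, y) :=
      (hf.comp (measurable_const.prodMk measurable_id)).stronglyMeasurable
    exact integral_map hY.aemeasurable hm.aestronglyMeasurable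
  have hsm : StronglyMeasurable fun x => ∫ y, f (x, y) ∂(P.map Y) :=
    hfs.integral_prod_right'
  refine ⟨?_, ?_, ?_⟩
  · have h1 : ∫ ω, f (X ω, Y ω) ∂P = ∫ z, f z ∂(P.map fun ω => (X ω, Y ω)) :=
      (integral_map hXY.aemeasurable hfs.aestronglyMeasurable).symm
    rw [h1, hmap, integral_prod f hint2, integral_map hX.aemeasurable hsm.aestronglyMeasurable]
    exact integral_congr_ae (Filter.Eventually.of_forall fun ω => hin (X ω))
  · have h2 := hint2.integral_prod_left
    have h3 := (integrable_map_measure hsm.aestronglyMeasurable hX.aemeasurable).mp h2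
    refine h3.congr (Filter.Eventually.of_forall fun ω => ?_)
    exact hin (X ω)
  · have h4 := hint2.prod_right_ae
    have h5 := ae_of_ae_map hX.aemeasurable h4
    filter_upwards [h5] with ω hω
    have hm : StronglyMeasurable fun y => f (X ω, y) :=
      (hf.comp (measurable_const.prodMk measurable_id)).stronglyMeasurable
    exact (integrable_map_measure hm.aestronglyMeasurable hY.aemeasurable).mp hω

end Pool.Agent.H686.QC
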