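import Mathlib
import Pool.Agent.H964.QC.Stm

set_option autoImplicit false

open MeasureTheory ProbabilityTheory Filter Finset
open Pool.Agent.H964.QC

namespace Pool.Agent.H686.QC

section

variable {V : Type} [Fintype V] [DecidableEq V] {C0 : ℝ} {N0 : ℕ} (W : Wlk V C0 N0)

theorem zr_zero (x : ℕ → V → ℝ) (y : V) : Zr W x 0 y = 1 := rfl

theorem zr_succ (x : ℕ → V → ℝ) (j : ℕ) (y : V) :
    Zr W x (j + 1) y = ∑ z, W.K 1 y z * ((1 + x (j + 1) z) * Zr W x j z) := rfl

theorem fwd_zero (x : ℕ → V → ℝ) (w : V → ℝ) : fwd W x 0 w = w := rfl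

theorem fwd_succ (x : ℕ → V → ℝ) (T : ℕ) (w : V → ℝ) :
    fwd W x (T + 1) w = fwd W x T (fun z => (1 + x (T + 1) z) * wt W w 1 z) := rfl

/-- one step of duality -/
theorem dual_step (x : ℕ → V → ℝ) (w : V → ℝ) (n : ℕ) :
    ∑ y, w y * Zr W x (n + 1) y = ∑ z, ((1 + x (n + 1) z) * wt W w 1 z) * Zr W x n z := by
  simp only [zr_succ, Finset.mul_sum]
  rw [Finset.sum_comm]
  refine Finset.sum_congr rfl fun z _ => ?_
  unfold wt
  rw [Finset.mul_sum, Finset.sum_mul]
  exact Finset.sum_congr rfl fun y _ => by ring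

theorem dual (x : ℕ → V → ℝ) (j T : ℕ) : ∀ w : V → ℝ,
    ∑ y, w y * Zr W x (j + T) y = ∑ z, fwd W (sft j x) T w z * Zr W x j z := by
  induction T with
  | zero => intro w; rfl
  | succ T ih =>
    intro w
    rw [← add_assoc, dual_step, ih, fwd_succ]
    rfl

theorem sft_zero (x : ℕ → V → ℝ) : sft 0 x = x := by
  funext n v
  unfold sft
  rw [zero_add]

theorem wt_nonneg (w : V → ℝ) (hw : ∀ z, 0 ≤ w z) (m : ℕ) (z : V) : 0 ≤ wt W w m z :=
  Finset.sum_nonneg fun x _ => mul_nonneg (hw x) (W.K_nonneg _ _ _)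

theorem fwd_nonneg (x : ℕ → V → ℝ) (hx : ∀ n v, -1 < x n v) (T : ℕ) : ∀ w : V → ℝ,
    (∀ z, 0 ≤ w z) → ∀ z, 0 ≤ fwd W x T w z := by
  induction T with
  | zero => intro w hw; exact hw
  | succ T ih =>
    intro w hw
    rw [fwd_succ]
    refine ih _ fun z => mul_nonneg ?_ (wt_nonneg W w hw 1 z)
    linarith [hx (T + 1) z]

theorem fwd_cls (x : ℕ → V → ℝ) (T : ℕ) : ∀ (w : V → ℝ) (t : ℕ),
    (∀ z, w z ≠ 0 → W.cls t z) → ∀ z, fwd W x T w z ≠ 0 → W.cls (t + T) z := by
  induction T with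
  | zero => intro w t hw; exact hw
  | succ T ih =>
    intro w t hw z hz
    rw [fwd_succ] at hz
    have h1 := ih _ (t + 1) (fun z hz => ?_) z hz
    · rwa [add_assoc, add_comm 1 T] at h1
    · have h2 : wt W w 1 z ≠ 0 := right_ne_zero_of_mul hz
      unfold wt at h2
      obtain ⟨y, _, hy⟩ := Finset.exists_ne_zero_of_sum_ne_zero h2
      exact W.K_cls 1 t y z (hw y (left_ne_zero_of_mul hy)) (right_ne_zero_of_mul hy)

theorem wt_smul (c : ℝ) (w : V → ℝ) (m : ℕ) (z : V) :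
    wt W (fun y => c * w y) m z = c * wt W w m z := by
  unfold wt
  rw [Finset.mul_sum]
  exact Finset.sum_congr rfl fun y _ => by ring

theorem fwd_smul (x : ℕ → V → ℝ) (T : ℕ) : ∀ (w : V → ℝ) (c : ℝ) (z : V),
    fwd W x T (fun y => c * w y) z = c * fwd W x T w z := by
  induction T with
  | zero => intro w c z; rfl
  | succ T ih =>
    intro w c z
    rw [fwd_succ, fwd_succ, ← ih]
    congr 1
    funext y
    rw [wt_smul]
    ring

theorem wt_zero (w : V → ℝ) (z : V) : wt W w 0 z = w z := by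
  unfold wt
  simp only [W.K_zero, mul_ite, mul_one, mul_zero]
  rw [Finset.sum_ite_eq' Finset.univ z]
  simp

end

theorem t_DUAL : S_DUAL := by
  intro V _ _ C0 N0 W x w j T
  refine ⟨dual W x j T w, ?_, ?_, fun hx hw => fwd_nonneg W x hx T w hw,
    fun t hw => fwd_cls W x T w t hw, fun c z => fwd_smul W x T w c z⟩
  · have h := dual W x 0 T w
    rw [zero_add, sft_zero] at h
    rw [h]
    refine Finset.sum_congr rfl fun z _ => ?_
    rw [zr_zero, mul_one]
  · unfold XX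
    rw [Nat.sub_self, ← Finset.sum_sub_distrib]
    refine Finset.sum_congr rfl fun z _ => ?_
    rw [wt_zero]
    ring

end Pool.Agent.H686.QC
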