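import Mathlib
import Pool.Agent.H964.QC.Stm

set_option autoImplicit false

open MeasureTheory ProbabilityTheory Filter Finset
open Pool.Agent.H964.QC

namespace Pool.Agent.H686.QC

theorem ov_measurable {V : Type} [Fintype V] [DecidableEq V] {C0 : ℝ} {N0 : ℕ} (W : Wlk V C0 N0)
    (m : ℕ) : Measurable fun w : V → ℝ => ov W w m := by
  unfold ov wt
  refine Finset.measurable_sum _ fun z _ => Measurable.pow_const ?_ 2
  exact Finset.measurable_sum _ fun x _ => (measurable_pi_apply x).mul_const _

theorem t_GM : S_GM := by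
  intro V _ _ C0 N0 W t B
  have e : {w : V → ℝ | Good W t B w} =
      ({w | ∀ x, 0 ≤ w x} ∩ {w | ∑ x, w x = 1}) ∩
      ((⋂ x, {w : V → ℝ | w x ≠ 0 → W.cls t x}) ∩
      ((⋂ n : ℕ, {w : V → ℝ | 1 ≤ n → n ≤ t → ov W w n ≤ B / Real.sqrt ((n : ℝ) * t)}) ∩
        {w | ∑ x, w x * W.d x ≤ B * t})) := by
    ext w
    simp only [Set.mem_inter_iff, Set.mem_iInter]
    constructor
    · intro h
      exact ⟨⟨h.nonneg, h.sum⟩, h.cls, h.ov, h.spread⟩
    · rintro ⟨⟨h1, h2⟩, h3, h4, h5⟩
      exact ⟨h1, h2, h3, h4, h5⟩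
  rw [e]
  have hsum : Measurable fun w : V → ℝ => ∑ x, w x :=
    Finset.measurable_sum _ fun x _ => measurable_pi_apply x
  refine ((?_ : MeasurableSet _).inter (?_ : MeasurableSet _)).inter
    ((MeasurableSet.iInter fun x => ?_).inter ((MeasurableSet.iInter fun n => ?_).inter ?_))
  · have : {w : V → ℝ | ∀ x, 0 ≤ w x} = ⋂ x, {w : V → ℝ | 0 ≤ w x} := by
      ext w; simp
    rw [this]
    exact MeasurableSet.iInter fun x => measurableSet_le measurable_const (measurable_pi_apply x)
  · exact measurableSet_eq_fun hsum measurable_const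
  · by_cases hc : W.cls t x
    · have : {w : V → ℝ | w x ≠ 0 → W.cls t x} = Set.univ := by
        ext w; simp [hc]
      rw [this]
      exact MeasurableSet.univ
    · have : {w : V → ℝ | w x ≠ 0 → W.cls t x} = {w : V → ℝ | w x = 0} := by
        ext w; simp [hc]
      rw [this]
      exact measurableSet_eq_fun (measurable_pi_apply x) measurable_const
  · by_cases hn : 1 ≤ n ∧ n ≤ t
    · have : {w : V → ℝ | 1 ≤ n → n ≤ t → ov W w n ≤ B / Real.sqrt ((n : ℝ) * t)} =
          {w : V → ℝ | ov W w n ≤ B / Real.sqrt ((n : ℝ) * t)} := by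
        ext w; simp [hn.1, hn.2]
      rw [this]
      exact measurableSet_le (ov_measurable W n) measurable_const
    · have : {w : V → ℝ | 1 ≤ n → n ≤ t → ov W w n ≤ B / Real.sqrt ((n : ℝ) * t)} = Set.univ := by
        ext w
        simp only [Set.mem_univ, iff_true]
        exact fun h1 h2 => absurd ⟨h1, h2⟩ hn
      rw [this]
      exact MeasurableSet.univ
  · exact measurableSet_le (Finset.measurable_sum _ fun x _ => (measurable_pi_apply x).mul_const _)
      measurable_const

end Pool.Agent.H686.QC
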